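import Mathlib
import Pool.Agent.H.MP_7283bc_al.M

set_option autoImplicit false

namespace Pool.Agent.Results.MP_7283bc_al.No

open Pool.Agent.H.MP_49092c_al Pool.Agent.H.MP_7283bc_al MvPolynomial Matrix
open Pool.Agent.H.MP_0b1547_co (LQ)

lemma x_mem (i : Fin 6) : x i ∈ piece J 1 := ⟨X i, isHomogeneous_X _ i, rfl⟩

lemma m_mem (i : Fin 6) : m i ∈ piece J 2 := by
  fin_cases i <;> exact ⟨X _ * X _, (isHomogeneous_X _ _).mul (isHomogeneous_X _ _), rfl⟩

lemma p1 {a : R} : a ∈ piece J 1 ↔ (f a).a = 0 ∧ (f a).w = 0 := by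
  constructor
  · rintro ⟨p, hp, rfl⟩
    obtain ⟨c, rfl⟩ := (Submodule.mem_span_range_iff_exists_fun _).1
      ((homogeneousSubmodule_one_eq_span_X (R := ZMod 2) (σ := Fin 6)).le hp)
    have : ∀ i, f ((Ideal.Quotient.mkₐ (ZMod 2) J).toLinearMap (X i)) = _ := f_x
    simp only [map_sum, map_smul, this]
    simp
  · rintro ⟨h1, h2⟩
    rw [← g_f a, g_apply, h1, h2]
    simpa using sum_mem fun i _ => Submodule.smul_mem _ _ (x_mem i)

lemma g1 (v : V) : g ⟨0, v, 0⟩ ∈ piece J 1 := p1.2 (by rw [f_g]; exact ⟨rfl, rfl⟩)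

def bits (n : ℕ) : V := fun i => (n / 2 ^ (i : ℕ) % 2 : ℕ)

def code (l : V) : ℕ :=
  (l 0).val + 2 * (l 1).val + 4 * (l 2).val + 8 * (l 3).val + 16 * (l 4).val + 32 * (l 5).val

def tab (l : V) (j : ℕ) : V :=
  bits (1392167490421354782706629926799589621752004931373776776342685265844505266874569284689002891940427167703204327501026245036516105660544428501790369653245132350604333803183999763773752368798731467900167811057921194129268869812785893849360853741499998395404200952499092327777052756811533990546481277858386003608873721083955929356785366592544303104898667569567624149844790874181773058242882704228236191774237185865342253796732890589042381870270874061603909903295619865545959581679661084783761782535804108696835477601564687210355368755442654583561337298700844525503293201192157774382879419615222377576900535919031961917736628483381871075139531323636907526843451415498259533312369343562376217295970177190323931499456833001995049408819334407185075693592580719147770184616004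398194538589967846809459574982107696427726216077028776574408429030273565474349150284718911991171583646553316498656993478001532269974793135321670359625747033675767068641395837678024796602867448618833091933602693384609758298316011617723387161535763734818357496970656494513865007116161963065945121054139482294287764100305611417656166482833788996189011762614915727538188524123012007737286216231058397727790911584953311066848872093953161041540998559023029887754162039154885898017895336357552583483905045028419002526952836272104904419933934457638860524832551789405765703260187125171374381090155482784856598585222561305143668749514338406749523280172070581838342551250067561529597235632911237417554938782131017027335948003562318887937191243631976530871833644081994778346622552599576199125609163142652589251363288365827785864493898667944190262643062427053195264 / 2 ^ (84 * code l + 6 * j))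

lemma hU : ∀ l : V, l ≠ 0 → be (tab l 0) l = 0 ∧ be (tab l 1) l = 0 ∧ ∀ k : Fin 6,
    be (tab l (2 * k + 2)) (tab l 0) + be (tab l (2 * k + 3)) (tab l 1) = Pi.single k 1 := by
  decide +kernel

theorem uk' : UK J := by
  let F : Set (Ideal R) := {I | ∃ T : Set R, T ⊆ piece J 1 ∧ Ideal.span T = I}
  have fam : ∀ (k : ℕ) (v : Fin k → R), (∀ j, v j ∈ piece J 1) →
      ∃ (r : ℕ) (y : Fin r → R), (∀ j, y j ∈ (piece J 1 : Set _)) ∧ LQ F r y ∧
        Submodule.span R (Set.range y) = Ideal.span (Set.range v) := by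
    intro k
    induction k with
    | zero => intro v _; exact ⟨0, v, fun j => j.elim0, trivial, rfl⟩
    | succ k ih =>
      intro v hv
      obtain ⟨r, y, y1, y2, y3⟩ := ih (Fin.tail v) (fun j => hv _)
      have ev : Set.range v = insert (v 0) (Set.range (Fin.tail v)) := by
        conv_lhs => rw [← Fin.cons_self_tail v]
        exact Fin.range_cons _ _
      by_cases h : v 0 ∈ Ideal.span (Set.range (Fin.tail v))
      · exact ⟨r, y, y1, y2, by rw [y3, ev]; exact (Submodule.span_insert_eq_span h).symm⟩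
      refine ⟨r + 1, Fin.cons (v 0) y, fun j => Fin.cases (hv 0) y1 j,
        ⟨by simpa using y2, Ideal.span {t | t ∈ piece J 1 ∧ t * v 0 ∈ Ideal.span (Set.range (Fin.tail v))},
          ⟨_, fun t ht => ht.1, rfl⟩, fun a => ?_⟩, ?_⟩
      swap
      · rw [Fin.range_cons, Submodule.span_insert, y3, ev]
        exact (Submodule.span_insert _ _).symm
      rw [Fin.tail_cons, Fin.cons_zero, y3, smul_eq_mul]
      refine ⟨fun ha => ?_, fun ha => (Ideal.span_le (I := Submodule.comap
        (LinearMap.toSpanSingleton R R (v 0)) (Ideal.span _))).2 (fun t ht => ht.2) ha⟩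
      obtain ⟨l1, l2⟩ := p1.1 (hv 0)
      have l3 : (f (v 0)).v ≠ 0 := fun e => h (by
        rw [f_inj (a := v 0) (b := 0) (by rw [map_zero]; exact Sh.ext l1 e l2)]; exact zero_mem _)
      have a0 : (f a).a = 0 := by
        by_contra e
        have e : (f a).a = 1 := by revert e; generalize (f a).a = c; revert c; decide
        have : (1 - (a - 1) + (a - 1) * (a - 1)) * (a * v 0) = v 0 :=
          f_inj (Sh.ext (by simp [l1]) (by simp [e, l1]) (by simp [e, l1, l2]))
        exact h (this ▸ Ideal.mul_mem_left _ _ ha)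
      obtain ⟨k1, k2, k3⟩ := hU _ l3
      have ann : ∀ u : V, be u (f (v 0)).v = 0 → g ⟨0, u, 0⟩ ∈ Ideal.span
          {t | t ∈ piece J 1 ∧ t * v 0 ∈ Ideal.span (Set.range (Fin.tail v))} := fun u hu =>
        Ideal.subset_span ⟨g1 u, by
          rw [f_inj (a := g ⟨0, u, 0⟩ * v 0) (b := 0) (Sh.ext (by simp [f_g]) (by simp [f_g, l1])
            (by simpa [f_g, l1, B] using hu))]
          exact zero_mem _⟩
      have e : a = g ⟨0, (f a).v, 0⟩ + ∑ i, (f a).w i • m i :=
        f_inj (Sh.ext (by simp [f_g, f_m, a0]) (by simp [f_g, f_m]) (by simp [f_g, f_m, ← pi_eq_sum_univ']))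
      rw [e]
      refine add_mem (Ideal.subset_span ⟨g1 _, ?_⟩) (sum_mem fun i _ => Submodule.smul_of_tower_mem _ _ ?_)
      · rwa [f_inj (a := g ⟨0, (f a).v, 0⟩ * v 0) (b := a * v 0)
          (Sh.ext (by simp [l1]) (by simp [f_g, l1, a0]) (by simp [f_g, l1, a0]))]
      · rw [f_inj (a := m i) (b := g ⟨0, _, 0⟩ * g ⟨0, _, 0⟩ + g ⟨0, _, 0⟩ * g ⟨0, _, 0⟩)
          (Sh.ext (by simp [f_g, f_m]) (by simp [f_g, f_m]) (by simpa [f_g, f_m, B] using (k3 i).symm))]
        exact add_mem (Ideal.mul_mem_left _ _ (ann _ k1)) (Ideal.mul_mem_left _ _ (ann _ k2))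
  have hF : ∀ I ∈ F, ∃ (r : ℕ) (y : Fin r → R), (∀ j, y j ∈ (piece J 1 : Set _)) ∧ LQ F r y ∧
      Submodule.span R (Set.range y) = I := by
    rintro _ ⟨T, hT, rfl⟩
    have : T.Finite := (Set.finite_range fun v : V => g ⟨0, v, 0⟩).subset fun t ht =>
      ⟨(f t).v, f_inj (by rw [f_g]; exact Sh.ext (p1.1 (hT ht)).1.symm rfl (p1.1 (hT ht)).2.symm)⟩
    obtain ⟨k, v, -, rfl⟩ := this.fin_param
    exact fam k v fun j => hT ⟨j, rfl⟩
  intro T hT
  refine linres_of F (piece J 1) (zero_mem _) (fun a ha => neg_mem ha) hF (fun a => g ⟨0, (f a).v, 0⟩)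
    (fun a => g1 _) (fun k v u z a hz hu hv e => f_inj ?_) _ ⟨T, hT, rfl⟩
  have e3 := congrArg (fun t => (f t).w) e
  refine Sh.ext ?_ ?_ ?_
  · simp [f_g, (p1.1 hz).1]
  · simp [f_g, (p1.1 hz).1, (p1.1 hu).1, fun l => (p1.1 (hv l)).1]
  · simpa [f_g, fun l => (p1.1 (hv l)).1, fun l => (p1.1 (hv l)).2] using e3

abbrev e (i : Fin 6) : V := Pi.single i 1

lemma K1 : ∀ v0 v1 : V, B v0 (e 0) + B v1 (e 1) = 0 → ∀ g0 g1 : ZMod 2,
    B v0 (e 1) + B v1 (e 2 + e 5) + (g0 • e 0 + g1 • e 1) = 0 → g0 = 0 ∧ g1 = 0 ∧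
      v0 = v0 1 • e 1 + v0 2 • (e 2 + e 5) ∧ v1 = v0 1 • e 0 + v0 2 • e 1 := by
  intro v0 v1 h g0 g1 h'
  have a0 := congrFun h 0
  have a1 := congrFun h 1
  have a2 := congrFun h 2
  have a3 := congrFun h 3
  have a4 := congrFun h 4
  have a5 := congrFun h 5
  have b0 := congrFun h' 0
  have b1 := congrFun h' 1
  have b2 := congrFun h' 2
  have b3 := congrFun h' 3
  have b4 := congrFun h' 4
  have b5 := congrFun h' 5
  simp only [B, LinearMap.mk₂_apply, be, Pi.add_apply, Pi.smul_apply, Pi.single_apply, cons_val, Pi.zero_apply, smul_eq_mul, Fin.reduceEq,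
    if_true, if_false] at a0 a1 a2 a3 a4 a5 b0 b1 b2 b3 b4 b5
  refine ⟨?_, ?_, funext fun i => ?_, funext fun i => ?_⟩
  · linear_combination (norm := (ring_nf <;> reduce_mod_char)) a0 + a1 + a3 + a4 + a5 + b0 + b3 + b4 + b5
  · linear_combination (norm := (ring_nf <;> reduce_mod_char)) b1
  · fin_cases i <;> simp only [Pi.add_apply, Pi.smul_apply, Pi.single_apply, smul_eq_mul, Fin.reduceEq,
      if_true, if_false, Fin.reduceFinMk, Fin.zero_eta, Fin.mk_one]
    · linear_combination (norm := (ring_nf <;> reduce_mod_char)) a0 + a1 + a2 + a3 + b4 + b5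
    · simp
    · simp
    · linear_combination (norm := (ring_nf <;> reduce_mod_char)) a4
    · linear_combination (norm := (ring_nf <;> reduce_mod_char)) a0 + a2 + a3 + b4 + b5
    · linear_combination (norm := (ring_nf <;> reduce_mod_char)) a0 + a1 + a2 + a3 + b2 + b3 + b5
  · fin_cases i <;> simp only [Pi.add_apply, Pi.smul_apply, Pi.single_apply, smul_eq_mul, Fin.reduceEq,
      if_true, if_false, Fin.reduceFinMk, Fin.zero_eta, Fin.mk_one]
    · linear_combination (norm := (ring_nf <;> reduce_mod_char)) a0 + a1 + a2 + a5 + b3 + b4 + b5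
    · linear_combination (norm := (ring_nf <;> reduce_mod_char)) a0 + a2 + a5 + b4
    · linear_combination (norm := (ring_nf <;> reduce_mod_char)) a0 + a1 + a2 + a3 + a5 + b3 + b4 + b5
    · linear_combination (norm := (ring_nf <;> reduce_mod_char)) a0
    · linear_combination (norm := (ring_nf <;> reduce_mod_char)) a0 + a2 + b4
    · linear_combination (norm := (ring_nf <;> reduce_mod_char)) a2

lemma K2 (w0 w1 : V) : ∃ (v0 v1 : V) (g0 g1 : ZMod 2),
    w0 = B v0 (e 1) + B v1 (e 2 + e 5) + (g0 • e 0 + g1 • e 1) ∧ w1 = B v0 (e 0) + B v1 (e 1) := by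
  refine ⟨![w0 4 + w0 5 + w1 0 + w1 1 + w1 2 + w1 3, 0, w0 2 + w0 3 + w0 5 + w1 0 + w1 1 + w1 2 + w1 3, w1 4, w0 4 + w0 5 + w1 0 + w1 2 + w1 3, 0],
    ![w0 3 + w0 4 + w0 5 + w1 0 + w1 1 + w1 2 + w1 5, w0 2 + w0 3 + w0 4 + w0 5 + w1 1 + w1 3 + w1 5, w0 3 + w0 4 + w0 5 + w1 0 + w1 1 + w1 2 + w1 3 + w1 5, w1 0, w0 4 + w1 0 + w1 2, w1 2],
    w0 0 + w0 3 + w0 4 + w0 5 + w1 0 + w1 1 + w1 3 + w1 4 + w1 5, w0 1, ?_⟩
  constructor <;> funext i <;> fin_cases i <;> simp [B, be] <;> ring_nf <;> reduce_mod_char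

lemma ex_diag {A ι κ μ o : Type} [CommRing A] [Fintype ι] [Fintype κ] [Fintype o] [DecidableEq o]
    {M : Matrix ι κ A} {N : Matrix κ μ A} (h : Function.Exact M.vecMulLinear N.vecMulLinear) :
    Function.Exact (blockDiagonal fun _ : o => M).vecMulLinear (blockDiagonal fun _ : o => N).vecMulLinear := by
  have k : ∀ {ι κ : Type} [Fintype ι] (M : Matrix ι κ A) (v : ι × o → A) (j : κ × o),
      (v ᵥ* blockDiagonal fun _ : o => M) j = ((fun i => v (i, j.2)) ᵥ* M) j.1 := by
    intro ι κ _ M v j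
    simp [vecMul, dotProduct, Fintype.sum_prod_type, blockDiagonal_apply]
  intro t
  constructor
  · intro h0
    choose u hu using fun c => (h fun i => t (i, c)).1 (funext fun j => (k N t (j, c)).symm.trans (congrFun h0 _))
    exact ⟨fun p => u p.2 p.1, funext fun j => (k M _ j).trans (congrFun (hu j.2) j.1)⟩
  · rintro ⟨u, rfl⟩
    funext j
    refine (k N _ j).trans (congrFun ((h _).2 ⟨fun i => u (i, j.2), funext fun i => (k M u (i, j.2)).symm⟩) _)

lemma ex_block {A ι κ μ ι' κ' μ' : Type} [CommRing A] [Fintype ι] [Fintype κ] [Fintype ι'] [Fintype κ']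
    {M : Matrix ι κ A} {N : Matrix κ μ A} {M' : Matrix ι' κ' A} {N' : Matrix κ' μ' A} :
    Function.Exact (fromBlocks M 0 0 M').vecMulLinear (fromBlocks N 0 0 N').vecMulLinear ↔
      Function.Exact M.vecMulLinear N.vecMulLinear ∧ Function.Exact M'.vecMulLinear N'.vecMulLinear := by
  simp only [Function.Exact, Set.mem_range, vecMulLinear_apply, vecMul_fromBlocks, vecMul_zero, add_zero,
    zero_add, Sum.elim_eq_iff, funext_iff, Sum.forall, Sum.elim_inl, Sum.elim_inr, Function.comp]
  constructor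
  · intro h
    refine ⟨fun t => ?_, fun t => ?_⟩
    · have := h (Sum.elim t 0)
      simp at this
      rw [show (∀ j, (t ᵥ* N) j = (0 : μ → A) j) ↔ _ from by simpa using this]
      exact ⟨fun ⟨u, h1, _⟩ => ⟨_, h1⟩, fun ⟨u, h1⟩ => ⟨Sum.elim u 0, h1, by simp⟩⟩
    · have := h (Sum.elim 0 t)
      simp at this
      rw [show (∀ j, (t ᵥ* N') j = (0 : μ' → A) j) ↔ _ from by simpa using this]
      exact ⟨fun ⟨u, _, h1⟩ => ⟨_, h1⟩, fun ⟨u, h1⟩ => ⟨Sum.elim 0 u, by simp, h1⟩⟩
  · rintro ⟨h1, h2⟩ t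
    refine (and_congr (h1 _) (h2 _)).trans
      ⟨fun ⟨⟨u, h⟩, v, h'⟩ => ⟨Sum.elim u v, h, h'⟩, fun ⟨u, h, h'⟩ => ⟨⟨_, h⟩, _, h'⟩⟩

noncomputable def D0 : Matrix (Fin 2 ⊕ Fin 1 × Fin 2) (Fin 2) R :=
  fromRows !![x 1, x 0; x 2 + x 5, x 1] (of fun p => ![![m 0, m 1] p.2, 0])

lemma D0_mul (t : Fin 2 ⊕ Fin 1 × Fin 2 → R) : t ᵥ* D0 =
    ![t (.inl 0) * x 1 + t (.inl 1) * (x 2 + x 5) + (t (.inr (0, 0)) * m 0 + t (.inr (0, 1)) * m 1),
      t (.inl 0) * x 0 + t (.inl 1) * x 1] := by
  funext k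
  fin_cases k <;> simp [D0, vecMul, dotProduct, Fintype.sum_prod_type]

lemma D0_ker (t : Fin 2 ⊕ Fin 1 × Fin 2 → R) : t ᵥ* D0 = 0 ↔
    (∃ u, u ᵥ* D0 = t ∘ .inl) ∧ ∀ p, (f (t (.inr p))).a = 0 := by
  rw [D0_mul]
  constructor
  · intro h
    have h0 := congrArg f (congrFun h 0)
    have h1 := congrArg f (congrFun h 1)
    simp only [cons_val_zero, cons_val_one, Pi.zero_apply, map_add, map_mul, f_x, f_m, map_zero] at h0 h1
    have a0 : (f (t (.inl 0))).a = 0 := by simpa using congrFun (congrArg Sh.v h1) 0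
    have a1 : (f (t (.inl 1))).a = 0 := by simpa using congrFun (congrArg Sh.v h1) 1
    obtain ⟨k1, k2, k3, k4⟩ := K1 _ _ (by simpa [a0, a1] using congrArg Sh.w h1) _ _
      (by simpa [a0, a1] using congrArg Sh.w h0)
    obtain ⟨v0, v1, g0, g1, k5, k6⟩ := K2 (f (t (.inl 0))).w (f (t (.inl 1))).w
    refine ⟨⟨Sum.elim ![g ⟨(f (t (.inl 0))).v 1, v0, 0⟩, g ⟨(f (t (.inl 0))).v 2, v1, 0⟩]
      fun p => g ⟨![g0, g1] p.2, 0, 0⟩, ?_⟩, fun p => ?_⟩
    · rw [D0_mul]
      funext k
      fin_cases k <;> apply f_inj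
      · exact Sh.ext (by simp [f_x, f_m, a0]) (by simpa [f_x, f_m, f_g] using k3.symm)
          (by simpa [f_x, f_m, f_g] using k5.symm)
      · exact Sh.ext (by simp [f_x, f_m, a1]) (by simpa [f_x, f_m, f_g] using k4.symm)
          (by simpa [f_x, f_m, f_g] using k6.symm)
    · obtain ⟨p, q⟩ := p
      fin_cases p; fin_cases q; exacts [k1, k2]
  · rintro ⟨⟨u, hu⟩, h⟩
    rw [D0_mul] at hu
    have h0 : _ = t (.inl 0) := congrFun hu 0
    have h1 : _ = t (.inl 1) := congrFun hu 1
    have r1 : B (e 1) (e 1) + B (e 0) (e 2 + e 5) = 0 := by simp only [B, LinearMap.mk₂_apply]; decide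
    have r2 : B (e 2 + e 5) (e 1) + B (e 1) (e 2 + e 5) = 0 := by simp only [B, LinearMap.mk₂_apply]; decide
    have r3 : B (e 1) (e 0) + B (e 0) (e 1) = 0 := by simp only [B, LinearMap.mk₂_apply]; decide
    have r4 : B (e 2 + e 5) (e 0) + B (e 1) (e 1) = 0 := by simp only [B, LinearMap.mk₂_apply]; decide
    simp only [e, map_add, LinearMap.add_apply] at r1 r2 r3 r4
    rw [← h0, ← h1]
    funext k
    fin_cases k <;> apply f_inj
    · refine Sh.ext (by simp [f_x, f_m]) (by simp [f_x, f_m]) ?_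
      simp [f_x, f_m, h]
      linear_combination (norm := module) (f (u (.inl 0))).a • r1 + (f (u (.inl 1))).a • r2
    · refine Sh.ext (by simp [f_x, f_m]) (by simp [f_x, f_m]) ?_
      simp [f_x, f_m, h]
      linear_combination (norm := module) (f (u (.inl 0))).a • r3 + (f (u (.inl 1))).a • r4

lemma base {μ : Type} [Fintype μ] (E : Matrix μ (Fin 1 × Fin 2) R)
    (hE : ∀ t, (∃ u, u ᵥ* E = t) ↔ ∀ p, (f (t p)).a = 0) :
    Function.Exact (fromBlocks D0 0 0 E).vecMulLinear D0.vecMulLinear ∧ ∀ M : Matrix (Fin 2) (Fin 2) R,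
      ¬ Function.Exact (fromBlocks (fromRows M (0 : Matrix (Fin 1 × Fin 2) _ R)) 0 0 E).vecMulLinear
        (fromRows M 0).vecMulLinear := by
  refine ⟨fun t => (D0_ker t).trans ?_, fun M h => ?_⟩
  · rw [← hE fun p => t (.inr p)]
    simp only [Set.mem_range, vecMulLinear_apply, vecMul_fromBlocks, vecMul_zero, add_zero, zero_add]
    refine ⟨fun ⟨⟨u, h⟩, v, h'⟩ => ⟨Sum.elim u v, ?_⟩, fun ⟨u, h⟩ => ?_⟩
    · funext j
      rcases j with j | j
      · simpa using congrFun h j
      · simpa using congrFun h' j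
    · exact ⟨⟨_, funext fun j => congrFun h (.inl j)⟩, _, funext fun j => congrFun h (.inr j)⟩
  · obtain ⟨u, hu⟩ := (h (Sum.elim 0 1)).1 (by simp)
    rw [vecMulLinear_apply, vecMul_fromBlocks] at hu
    have := (hE 1).1 ⟨u ∘ .inr, funext fun j => by simpa using congrFun hu (.inr j)⟩ (0, 0)
    simp at this

section
variable (β : ℕ → ℕ)

def Ix : ℕ → Type
  | 0 => Fin 2
  | i + 1 => Ix i ⊕ Fin (β i) × Fin 2

instance fIx : ∀ i, Fintype (Ix β i)
  | 0 => inferInstanceAs (Fintype (Fin 2))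
  | i + 1 => @instFintypeSum _ _ (fIx i) _

def dg : ∀ i, Ix β i → ℕ
  | 0, _ => 0
  | i + 1, .inl j => dg i j + 1
  | i + 1, .inr _ => i + 2

end

def ext1 (b : ℕ → ℕ) : ℕ → ℕ
  | 0 => 1
  | i + 1 => b i

noncomputable def DD (b : ℕ → ℕ) (E : ∀ i, Matrix (Fin (ext1 b (i + 1))) (Fin (ext1 b i)) R) :
    ∀ i, Matrix (Ix (ext1 b) (i + 1)) (Ix (ext1 b) i) R
  | 0 => D0
  | i + 1 => fromBlocks (DD b E i) 0 0 (blockDiagonal fun _ => E i)

theorem result : UK J ∧ ¬ AbsK J := by
  refine ⟨uk', fun h => ?_⟩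
  obtain ⟨b, y, D, y1, D1, sp, e0, e1⟩ := uk' (Set.range x) (by rintro _ ⟨i, rfl⟩; exact x_mem i)
  let E : ∀ i, Matrix (Fin (ext1 b (i + 1))) (Fin (ext1 b i)) R := fun i =>
    match i with
    | 0 => fun j _ => y j
    | i + 1 => D i
  have E1 : ∀ i j k, E i j k ∈ piece J 1 := fun i => by
    cases i with
    | zero => exact fun j _ => y1 j
    | succ i => exact D1 i
  have E2 : ∀ i, Function.Exact (E (i + 1)).vecMulLinear (E i).vecMulLinear := fun i => by
    cases i with
    | zero =>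
      intro t
      refine Iff.trans ?_ (e0 t)
      exact ⟨fun h => congrFun h (0 : Fin 1), fun h => funext fun _ => h⟩
    | succ i => exact e1 i
  have E3 : ∀ t : Fin 1 × Fin 2 → R, (∃ u : Fin (b 0) × Fin 2 → R,
      u ᵥ* (blockDiagonal fun _ : Fin 2 => (of fun j _ => y j : Matrix _ (Fin 1) R)) = t) ↔
      ∀ p, (f (t p)).a = 0 := by
    intro t
    constructor
    · rintro ⟨u, rfl⟩ p
      simp [vecMul, dotProduct, Fintype.sum_prod_type, blockDiagonal_apply, (p1.1 (y1 _)).1]
    · intro ht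
      have : ∀ c, ∃ u : Fin (b 0) → R, ∑ j, u j * y j = t (0, c) := fun c => by
        rw [← Ideal.mem_span_range_iff_exists_fun, sp, ← g_f (t (0, c)), g_apply, ht, map_zero, zero_add]
        have : ∀ i, x i ∈ Ideal.span (Set.range x) := fun i => Ideal.subset_span ⟨i, rfl⟩
        refine add_mem (sum_mem fun i _ => Submodule.smul_of_tower_mem _ _ (this i))
          (sum_mem fun i _ => Submodule.smul_of_tower_mem _ _ ?_)
        fin_cases i <;> exact Ideal.mul_mem_left _ _ (this _)
      choose u hu using this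
      refine ⟨fun p => u p.2 p.1, funext fun ⟨p, c⟩ => ?_⟩
      rw [Subsingleton.elim p 0, ← hu]
      simp [vecMul, dotProduct, Fintype.sum_prod_type, blockDiagonal_apply]
  obtain ⟨n, hn⟩ := h (Ix (ext1 b)) (dg (ext1 b)) (DD b E) (fun i => by
    induction i with
    | zero =>
      rintro (j | ⟨j, c⟩) k
      · refine ⟨?_, fun h => absurd h (by simp [dg])⟩
        fin_cases j <;> fin_cases k
        exacts [x_mem _, x_mem _, add_mem (x_mem _) (x_mem _), x_mem _]
      · refine ⟨?_, fun h => absurd h (by simp [dg])⟩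
        fin_cases c <;> fin_cases k
        exacts [m_mem 0, zero_mem _, m_mem 1, zero_mem _]
    | succ i ih =>
      rintro (j | j) (k | k)
      · simpa [DD, dg] using ih j k
      · exact ⟨zero_mem _, fun _ => rfl⟩
      · exact ⟨zero_mem _, fun _ => rfl⟩
      · refine ⟨?_, fun h => absurd h (by simp [dg])⟩
        simp only [DD, dg, fromBlocks_apply₂₂, blockDiagonal_apply, show i + 1 + 2 - (i + 2) = 1 by omega]
        split_ifs
        exacts [E1 _ _ _, zero_mem _]) (fun i => by
    induction i with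
    | zero => exact (base _ E3).1
    | succ i ih => exact ex_block.2 ⟨ih, ex_diag (E2 i)⟩)
  have lb : ∀ i, linPart (dg _ (i + 2)) (dg _ (i + 1)) (DD b E (i + 1)) =
      fromBlocks (linPart (dg _ (i + 1)) (dg _ i) (DD b E i)) 0 0 (blockDiagonal fun _ => E i) := by
    intro i
    funext j k
    rcases j with j | j <;> rcases k with k | k <;> simp [linPart, DD, dg]
  refine absurd (hn n le_rfl) ?_
  clear hn
  induction n with
  | zero =>
    have : linPart (dg (ext1 b) 1) (dg (ext1 b) 0) (DD b E 0) = fromRows !![x 1, x 0; x 2 + x 5, x 1] 0 := by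
      funext j k
      rcases j with j | j <;> rfl
    rw [lb, this]
    exact (base _ E3).2 _
  | succ i ih =>
    rw [lb (i + 1), lb i]
    exact fun h => ih (lb i ▸ (ex_block.1 h).1)

end Pool.Agent.Results.MP_7283bc_al.No
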